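import Pool.Agent.Lib.MP_301213_nt.AA.Final

/-! MP_301213_nt. Hoffman words with a long tail of letters `2`: for almost all lengths of the
tail there is no integer relation of polynomial height. -/

open Polynomial Filter

namespace Pool.Agent.Results.MP_301213_nt.AlmostAll

/-- The multiple zeta value with increasing summation variables,
`ζ(k_1, ..., k_n) = ∑_{0 < m_1 < ... < m_n} 1 / (m_1 ^ k_1 * ... * m_n ^ k_n)`. -/
noncomputable def mzv (k : List ℕ) : ℝ :=
  ∑' m : {m : Fin k.length → ℕ // StrictMono m ∧ ∀ i, 0 < m i},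
    ∏ i, ((m.1 i : ℝ) ^ (k.get i))⁻¹

open Classical in
/-- Let `W` be a finite set of Hoffman words (letters `2` and `3`) of the same weight `k`. For
every `A` there are `C` and `η > 0` such that for every `N` there are at most `C N^(1-η)` integers
`n < N` for which the numbers `ζ(w 2^n)`, `w ∈ W`, satisfy a nontrivial integer relation with all
coefficients at most `n ^ A` in absolute value. -/
theorem result (k : ℕ) (W : Finset (List ℕ))
    (hW : ∀ w ∈ W, (∀ a ∈ w, a = 2 ∨ a = 3) ∧ w.sum = k) (A : ℕ) :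
    ∃ C η : ℝ, 0 < η ∧ ∀ N : ℕ,
      (((Finset.range N).filter fun n : ℕ => ∃ c : List ℕ → ℤ, (∃ w ∈ W, c w ≠ 0) ∧
          (∀ w ∈ W, |c w| ≤ (n : ℤ) ^ A) ∧
          ∑ w ∈ W, (c w : ℝ) * mzv (w ++ List.replicate n 2) = 0).card : ℝ) ≤
        C * (N : ℝ) ^ (1 - η) := by
  have e : ∀ l : List ℕ, mzv l = HofPers.T l 0 := fun l => HofPers.real_tsum l
  exact HofAA.almost_all k W hW A _ fun n hn => by simpa only [e] using hn

end Pool.Agent.Results.MP_301213_nt.AlmostAll
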