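import Pool.Agent.Lib.MZDep.DFix
import Pool.Agent.Lib.MZDim.ZMain

/-! MP_301213_nt. Lower bounds for the dimension of the space of multiple zeta values of weight `k` and
depth at most `d`, for all `k` and `d`: exponential growth in `k` if `d` is proportional to `k`, and growth
like a power of `k` if `d` is fixed. -/

namespace Pool.Agent.Results.MP_301213_nt.DepthGrowth

/-- The multiple zeta value of the word `s = (s_1, ..., s_n)` (convention of the problem file):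
`∑_{0 < m_1 < m_2 < ... < m_n} 1 / (m_1 ^ s_1 * ... * m_n ^ s_n)`. -/
noncomputable def mzv (s : List ℕ) : ℝ :=
  ∑' m : {m : Fin s.length → ℕ // StrictMono m ∧ ∀ i, 0 < m i},
    ∏ i, ((m.1 i : ℝ) ^ (s.get i))⁻¹

/-- The `ℚ`-span of the multiple zeta values of weight `k` and depth at most `d` (letters at least `1`,
the last letter at least `2`). -/
noncomputable def Fil (d k : ℕ) : Submodule ℚ ℝ :=
  Submodule.span ℚ {x : ℝ | ∃ s : List ℕ,
    (∀ a ∈ s, 1 ≤ a) ∧ (∀ a ∈ s.getLast?, 2 ≤ a) ∧ s.sum = k ∧ s.length ≤ d ∧ x = mzv s}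

/-- The `ℚ`-span of the Hoffman elements of weight `k` with at most `d` letters `3`: the span of the family
`H_{k,d}` of the problem file. -/
noncomputable def HoffmanSpan (d k : ℕ) : Submodule ℚ ℝ :=
  Submodule.span ℚ {x : ℝ | ∃ s : List ℕ,
    (∀ a ∈ s, a = 2 ∨ a = 3) ∧ s.sum = k ∧ s.count 3 ≤ d ∧ x = mzv s}

/-- (1) All weights and depths: if `k ≥ 3 n + 7` and `d ≥ 3 f + 1` then
`∑_{j ≤ f} C(n, j) ≤ 432 k^2 dim Fil_d Z_k`. (2) Fixed depth `d ≥ 1`: there is `c > 0` with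
`dim Fil_d Z_k ≥ c k^(⌊2d/3⌋/2 - 2)` for all `k ≥ 2`; the exponent is positive for `d ≥ 8`. (3) If the values
of weight `k` and depth at most `d` lie in the span of `H_{k,d}` (theorem of Brown and Goncharov), then at
least `dim Fil_d Z_k` members of `H_{k,d}` are linearly independent. -/
theorem result :
    (∀ n f k d : ℕ, 3 * n + 7 ≤ k → 3 * f + 1 ≤ d →
      ∑ j ∈ Finset.range (f + 1), n.choose j ≤ 432 * k ^ 2 * Module.finrank ℚ (Fil d k)) ∧
    (∀ d : ℕ, 1 ≤ d → ∃ c : ℝ, 0 < c ∧ ∀ k : ℕ, 2 ≤ k →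
      c * (k : ℝ) ^ (((2 * d / 3 : ℕ) : ℝ) / 2 - 2) ≤ (Module.finrank ℚ (Fil d k) : ℝ)) ∧
    (∀ k d : ℕ, Fil d k ≤ HoffmanSpan d k →
      ∃ W : Finset (List ℕ), (∀ s ∈ W, (∀ a ∈ s, a = 2 ∨ a = 3) ∧ s.sum = k ∧ s.count 3 ≤ d) ∧
        LinearIndependent ℚ (fun s : W => mzv s) ∧ Module.finrank ℚ (Fil d k) ≤ W.card) := by
  have hm : ∀ s, mzv s = HofPers.T s 0 := HofPers.real_tsum
  have hZ : ∀ d k, Fil d k = Pool.MZDep.ZD k d := by
    intro d k
    unfold Fil Pool.MZDep.ZD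
    congr 1
    ext x
    constructor
    · rintro ⟨s, h1, h2, h3, h4, h5⟩
      exact ⟨s, ⟨⟨h1, h2⟩, h3, h4⟩, by rw [h5, hm]⟩
    · rintro ⟨s, ⟨⟨h1, h2⟩, h3, h4⟩, h5⟩
      exact ⟨s, h1, h2, h3, h4, by rw [hm]; exact h5.symm⟩
  refine ⟨fun n f k d hk hd => ?_, fun d hd => ?_, fun k d hH => ?_⟩
  · rw [hZ]
    have h1 := Pool.MZDep.dim_diag (k := k) (f := f) (by omega)
    have h2 : Pool.MZDep.V n f ≤ Pool.MZDep.V ((k - 1) / 3 - 2) f :=
      Pool.MZDep.V_mono_left f (by omega)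
    exact (h2.trans h1).trans (Nat.mul_le_mul_left _ (Pool.MZDep.finrank_ZD_mono hd))
  · obtain ⟨c, hc, h⟩ := Pool.MZDep.dim_fixed d hd
    exact ⟨c, hc, fun k hk => by rw [hZ]; exact h k hk⟩
  · have hH2 : HoffmanSpan d k = Submodule.span ℚ
        (mzv '' {s : List ℕ | (∀ a ∈ s, a = 2 ∨ a = 3) ∧ s.sum = k ∧ s.count 3 ≤ d}) := by
      unfold HoffmanSpan
      congr 1
      ext x
      constructor
      · rintro ⟨s, h1, h2, h3, h4⟩
        exact ⟨s, ⟨h1, h2, h3⟩, h4.symm⟩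
      · rintro ⟨s, ⟨h1, h2, h3⟩, h4⟩
        exact ⟨s, h1, h2, h3, h4.symm⟩
    have hfin : {s : List ℕ | (∀ a ∈ s, a = 2 ∨ a = 3) ∧ s.sum = k ∧ s.count 3 ≤ d}.Finite := by
      refine (Pool.MZDim.adm_finite k).subset ?_
      rintro s ⟨hs1, hs2, -⟩
      refine ⟨fun a ha => ?_, hs2⟩
      rcases hs1 a ha with h | h <;> omega
    obtain ⟨hf, W, hW1, hW2, hW3⟩ := Pool.MZDim.exists_words mzv _ hfin
    refine ⟨W, fun s hs => hW1 s hs, hW2, ?_⟩
    rw [hW3, ← hH2]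
    rw [← hH2] at hf
    exact Submodule.finrank_mono hH

end Pool.Agent.Results.MP_301213_nt.DepthGrowth
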