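import Pool.Agent.Lib.MZExp.VGrow
import Pool.Agent.Lib.MZDim.ZMain

/-! MP_301213_nt. The dimension of the space of multiple zeta values of weight `k` grows
exponentially in `k`: `dim Z_k ≥ 2^(k/3) / (585 k^(5/3))` for every `k ≥ 2`, and `dim Z_k ≥ 2` for
every `k ≥ 57`. -/

namespace Pool.Agent.Results.MP_301213_nt.ExplicitGrowth

/-- The multiple zeta value of the word `s = (s_1, ..., s_n)` (convention of the problem file):
`∑_{0 < m_1 < m_2 < ... < m_n} 1 / (m_1 ^ s_1 * ... * m_n ^ s_n)`. -/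
noncomputable def mzv (s : List ℕ) : ℝ :=
  ∑' m : {m : Fin s.length → ℕ // StrictMono m ∧ ∀ i, 0 < m i},
    ∏ i, ((m.1 i : ℝ) ^ (s.get i))⁻¹

/-- `Z_k`: the `ℚ`-span of all multiple zeta values of weight `k` (letters at least `1`, the last
letter at least `2`). -/
noncomputable def Z (k : ℕ) : Submodule ℚ ℝ :=
  Submodule.span ℚ {x : ℝ | ∃ s : List ℕ,
    (∀ a ∈ s, 1 ≤ a) ∧ (∀ a ∈ s.getLast?, 2 ≤ a) ∧ s.sum = k ∧ x = mzv s}

/-- The `ℚ`-span of the Hoffman elements of weight `k` (all letters `2` or `3`). -/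
noncomputable def HoffmanSpan (k : ℕ) : Submodule ℚ ℝ :=
  Submodule.span ℚ {x : ℝ | ∃ s : List ℕ, (∀ a ∈ s, a = 2 ∨ a = 3) ∧ s.sum = k ∧ x = mzv s}

/-- For every `k ≥ 2`: `2^(k/3) ≤ 585 k^(5/3) dim Z_k`, and `dim Z_k ≥ 2` if `k ≥ 57`. If the Hoffman
elements of weight `k` span `Z_k` (theorem of Brown), the same bounds hold for the size of a
`ℚ`-linearly independent set of Hoffman elements of weight `k`. -/
theorem result (k : ℕ) (hk : 2 ≤ k) :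
    ((2 : ℝ) ^ ((k : ℝ) / 3) ≤ 585 * (k : ℝ) ^ ((5 : ℝ) / 3) * (Module.finrank ℚ (Z k) : ℝ) ∧
      (57 ≤ k → 2 ≤ Module.finrank ℚ (Z k))) ∧
    (HoffmanSpan k = Z k →
      ∃ W : Finset (List ℕ), (∀ s ∈ W, (∀ a ∈ s, a = 2 ∨ a = 3) ∧ s.sum = k) ∧
        LinearIndependent ℚ (fun s : W => mzv s) ∧
        (2 : ℝ) ^ ((k : ℝ) / 3) ≤ 585 * (k : ℝ) ^ ((5 : ℝ) / 3) * (W.card : ℝ) ∧
        (57 ≤ k → 2 ≤ W.card)) := by
  have hm : ∀ s, mzv s = HofPers.T s 0 := HofPers.real_tsum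
  have hZ : Z k = Pool.MZExp.ZT k := by
    unfold Z Pool.MZExp.ZT
    congr 1
    ext x
    constructor
    · rintro ⟨s, h1, h2, h3, h4⟩
      exact ⟨s, ⟨⟨h1, h2⟩, h3⟩, by rw [h4, hm]⟩
    · rintro ⟨s, ⟨⟨h1, h2⟩, h3⟩, h4⟩
      exact ⟨s, h1, h2, h3, by rw [hm]; exact h4.symm⟩
  have h1 := Pool.MZExp.cube_real hk
  have h2 : 57 ≤ k → 2 ≤ Module.finrank ℚ (Pool.MZExp.ZT k) := Pool.MZExp.cube_two
  refine ⟨⟨by rw [hZ]; exact h1, by rw [hZ]; exact h2⟩, fun hH => ?_⟩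
  have hH2 : HoffmanSpan k =
      Submodule.span ℚ (mzv '' {s : List ℕ | (∀ a ∈ s, a = 2 ∨ a = 3) ∧ s.sum = k}) := by
    unfold HoffmanSpan
    congr 1
    ext x
    constructor
    · rintro ⟨s, h1, h3, h4⟩
      exact ⟨s, ⟨h1, h3⟩, h4.symm⟩
    · rintro ⟨s, ⟨h1, h3⟩, h4⟩
      exact ⟨s, h1, h3, h4.symm⟩
  have hfin : {s : List ℕ | (∀ a ∈ s, a = 2 ∨ a = 3) ∧ s.sum = k}.Finite := by
    refine (Pool.MZDim.adm_finite k).subset ?_
    rintro s ⟨hs1, hs2⟩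
    refine ⟨fun a ha => ?_, hs2⟩
    rcases hs1 a ha with h | h <;> omega
  obtain ⟨-, W, hW1, hW2, hW3⟩ := Pool.MZDim.exists_words mzv _ hfin
  rw [← hH2, hH, hZ] at hW3
  exact ⟨W, fun s hs => hW1 s hs, hW2, by rw [hW3]; exact h1, by rw [hW3]; exact h2⟩

end Pool.Agent.Results.MP_301213_nt.ExplicitGrowth
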