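import Pool.Agent.Lib.MZExp.GenFinal

/-! MP_301213_nt. Exponentially many algebra generators of the multiple zeta values in infinitely
many weights: `Z_k` modulo the products of multiple zeta values of smaller weight and modulo the
multiple zeta values of depth at most `δ k` has dimension greater than `ρ^k`, for every
`ρ < 2^(1/3)` and every `δ` with `3 H(δ) < log 2` (for instance `δ = 1/17`). -/

namespace Pool.Agent.Results.MP_301213_nt.Indecomposables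

/-- The multiple zeta value of the word `s = (s_1, ..., s_n)` (convention of the problem file):
`∑_{0 < m_1 < m_2 < ... < m_n} 1 / (m_1 ^ s_1 * ... * m_n ^ s_n)`. -/
noncomputable def mzv (s : List ℕ) : ℝ :=
  ∑' m : {m : Fin s.length → ℕ // StrictMono m ∧ ∀ i, 0 < m i},
    ∏ i, ((m.1 i : ℝ) ^ (s.get i))⁻¹

/-- `Z_k`: the `ℚ`-span of all multiple zeta values of weight `k` (letters at least `1`, the last
letter at least `2`). -/
noncomputable def Z (k : ℕ) : Submodule ℚ ℝ :=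
  Submodule.span ℚ {x : ℝ | ∃ s : List ℕ,
    (∀ a ∈ s, 1 ≤ a) ∧ (∀ a ∈ s.getLast?, 2 ≤ a) ∧ s.sum = k ∧ x = mzv s}

/-- The `ℚ`-span of the products `x y` with `x ∈ Z_i`, `y ∈ Z_j`, `i, j ≥ 1`, `i + j = k`, and of the
multiple zeta values of weight `k` and depth at most `δ k`. -/
noncomputable def Dec (δ : ℝ) (k : ℕ) : Submodule ℚ ℝ :=
  Submodule.span ℚ ({z : ℝ | ∃ i j : ℕ, 1 ≤ i ∧ 1 ≤ j ∧ i + j = k ∧
      ∃ x ∈ Z i, ∃ y ∈ Z j, z = x * y} ∪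
    {x : ℝ | ∃ s : List ℕ, (∀ a ∈ s, 1 ≤ a) ∧ (∀ a ∈ s.getLast?, 2 ≤ a) ∧ s.sum = k ∧
      (s.length : ℝ) ≤ δ * k ∧ x = mzv s})

/-- Let `0 < δ ≤ 1/2` with `3 H(δ) < log 2`, `H(δ) = -δ log δ - (1 - δ) log (1 - δ)` (for instance
`δ = 1/17`), and let `0 ≤ ρ < 2^(1/3)`. Then `dim Z_k > dim Dec_k + ρ^k` for infinitely many `k`,
where `Dec_k ⊆ Z_k` is spanned by the products of elements of `Z_i`, `Z_j` of smaller weight and the
multiple zeta values of weight `k` and depth at most `δ k`. -/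
theorem result :
    (3 * Real.binEntropy (1 / 17) < Real.log 2) ∧
    ∀ δ : ℝ, 0 < δ → δ ≤ 1 / 2 → 3 * Real.binEntropy δ < Real.log 2 →
      ∀ ρ : ℝ, 0 ≤ ρ → ρ < 2 ^ ((1 : ℝ) / 3) → ∀ K : ℕ, ∃ k : ℕ, K ≤ k ∧ Dec δ k ≤ Z k ∧
        (Module.finrank ℚ (Dec δ k) : ℝ) + ρ ^ k < (Module.finrank ℚ (Z k) : ℝ) := by
  have hm : ∀ s, mzv s = HofPers.T s 0 := HofPers.real_tsum
  have hZ : ∀ k, Z k = Pool.MZExp.ZT k := by
    intro k
    unfold Z Pool.MZExp.ZT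
    congr 1
    ext x
    constructor
    · rintro ⟨s, h1, h2, h3, h4⟩
      exact ⟨s, ⟨⟨h1, h2⟩, h3⟩, by rw [h4, hm]⟩
    · rintro ⟨s, ⟨⟨h1, h2⟩, h3⟩, h4⟩
      exact ⟨s, h1, h2, h3, by rw [hm]; exact h4.symm⟩
  have hDec : ∀ (δ : ℝ) (k : ℕ), Dec δ k = Pool.MZExp.Gen.Dec Pool.MZExp.ZT k ⊔
      Submodule.span ℚ (Pool.MZExp.Gen.DT (fun j => δ * j) k) := by
    intro δ k
    unfold Dec Pool.MZExp.Gen.Dec
    rw [Submodule.span_union]
    congr 1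
    · simp only [hZ]
    · congr 1
      ext x
      constructor
      · rintro ⟨s, h1, h2, h3, h4, h5⟩
        exact ⟨s, ⟨h1, h2⟩, h3, h4, by rw [h5, hm]⟩
      · rintro ⟨s, ⟨h1, h2⟩, h3, h4, h5⟩
        exact ⟨s, h1, h2, h3, h4, by rw [hm]; exact h5⟩
  refine ⟨Pool.MZExp.Gen.entropy_17, fun δ h0 h1 h2 ρ h3 h4 K => ?_⟩
  obtain ⟨k, hk, h5⟩ := Pool.MZExp.Gen.indec_third h0 h1 h2 h3 h4 K
  refine ⟨k, hk, ?_, ?_⟩
  · rw [hDec, hZ]
    exact sup_le (Pool.MZExp.Gen.Dec_le Pool.MZExp.Gen.mul_mem_ZT' k)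
      (Submodule.span_le.2 (Pool.MZExp.Gen.DT_subset _ k))
  · rw [hDec, hZ]
    exact h5

end Pool.Agent.Results.MP_301213_nt.Indecomposables
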